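import Mathlib
import Pool.Agent.Results.MP_c34da8_nt.TwoClasses

/-!
# Products of two factors from two intervals
-/

set_option autoImplicit false

namespace Pool.Agent.Y906.UP

open Filter Finset Pool.Agent.Results.MP_c34da8_nt.TwoClasses

/-- the products `a b` with `1 ≤ a ≤ A` and `1 ≤ b ≤ B` -/
def rect (A B : ℕ) : Finset ℕ := (Ioc 0 A ×ˢ Ioc 0 B).image (fun x => x.1 * x.2)

theorem mem_rect (A B a b : ℕ) (ha : 0 < a) (hA : a ≤ A) (hb : 0 < b) (hB : b ≤ B) :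
    a * b ∈ rect A B :=
  mem_image.2 ⟨(a, b), mem_product.2 ⟨mem_Ioc.2 ⟨ha, hA⟩, mem_Ioc.2 ⟨hb, hB⟩⟩, rfl⟩

lemma overlap_rect (P : Finset ℕ) (hP : ∀ p ∈ P, p.Prime) (A B : ℕ) (hE : 0 < recSum P) :
    (((Ioc 0 A ×ˢ Ioc 0 B).filter (fun x : ℕ × ℕ =>
      recSum P / 4 ≤ ((P.filter (fun p => p ∣ x.1 ∧ p ∣ x.2)).card : ℝ))).card : ℝ)
      ≤ 4 * ((A : ℝ) * B) / recSum P := by
  set T := (Ioc 0 A ×ˢ Ioc 0 B).filter (fun x : ℕ × ℕ =>
      recSum P / 4 ≤ ((P.filter (fun p => p ∣ x.1 ∧ p ∣ x.2)).card : ℝ)) with hT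
  have h1 : (T.card : ℝ) * (recSum P / 4)
      ≤ ∑ x ∈ Ioc 0 A ×ˢ Ioc 0 B, ((P.filter (fun p => p ∣ x.1 ∧ p ∣ x.2)).card : ℝ) := by
    calc (T.card : ℝ) * (recSum P / 4) = ∑ x ∈ T, (recSum P / 4) := by
          rw [Finset.sum_const, nsmul_eq_mul]
      _ ≤ ∑ x ∈ T, ((P.filter (fun p => p ∣ x.1 ∧ p ∣ x.2)).card : ℝ) :=
          Finset.sum_le_sum (fun x hx => (Finset.mem_filter.1 hx).2)
      _ ≤ _ := by
          apply Finset.sum_le_sum_of_subset_of_nonneg (Finset.filter_subset _ _)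
          intro n _ _
          positivity
  have h2 : ∑ x ∈ Ioc 0 A ×ˢ Ioc 0 B, ((P.filter (fun p => p ∣ x.1 ∧ p ∣ x.2)).card : ℝ)
      = ∑ p ∈ P, ((A / p : ℕ) : ℝ) * ((B / p : ℕ) : ℝ) := by
    have : ∀ x : ℕ × ℕ, ((P.filter (fun p => p ∣ x.1 ∧ p ∣ x.2)).card : ℝ)
        = ∑ p ∈ P, (if p ∣ x.1 then (1 : ℝ) else 0) * (if p ∣ x.2 then (1 : ℝ) else 0) := by
      intro x
      rw [Finset.card_filter]
      push_cast
      apply Finset.sum_congr rfl
      intro p _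
      by_cases h1 : p ∣ x.1 <;> by_cases h2 : p ∣ x.2 <;> simp [h1, h2]
    simp_rw [this]
    rw [Finset.sum_comm]
    apply Finset.sum_congr rfl
    intro p _
    rw [Finset.sum_product, ← sum_ind_dvd, ← sum_ind_dvd, Finset.sum_mul_sum]
  have h3 : ∑ p ∈ P, ((A / p : ℕ) : ℝ) * ((B / p : ℕ) : ℝ) ≤ (A : ℝ) * B := by
    calc ∑ p ∈ P, ((A / p : ℕ) : ℝ) * ((B / p : ℕ) : ℝ)
        ≤ ∑ p ∈ P, ((A : ℝ) * B) * ((1 : ℝ) / p * (1 / p)) := by
          apply Finset.sum_le_sum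
          intro p hp
          have hp0 : (0 : ℝ) < p := by exact_mod_cast (hP p hp).pos
          have h3 : ((A / p : ℕ) : ℝ) ≤ (A : ℝ) / p := Nat.cast_div_le
          have h3' : ((B / p : ℕ) : ℝ) ≤ (B : ℝ) / p := Nat.cast_div_le
          calc ((A / p : ℕ) : ℝ) * ((B / p : ℕ) : ℝ) ≤ ((A : ℝ) / p) * ((B : ℝ) / p) := by
                gcongr
            _ = ((A : ℝ) * B) * ((1 : ℝ) / p * (1 / p)) := by
                field_simp
      _ = ((A : ℝ) * B) * ∑ p ∈ P, ((1 : ℝ) / p * (1 / p)) := by rw [Finset.mul_sum]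
      _ ≤ ((A : ℝ) * B) * 1 := by
          gcongr
          exact sum_inv_sq_le P hP
      _ = (A : ℝ) * B := mul_one _
  rw [le_div_iff₀ hE]
  rw [h2] at h1
  linarith

/-- bound for a fixed finite set of primes -/
lemma rect_card_le (P : Finset ℕ) (hP : ∀ p ∈ P, p.Prime) (A B : ℕ) (hE : 0 < recSum P) :
    ((rect A B).card : ℝ) ≤
      (52 * ((A : ℝ) * B) + 32 * P.card + 32 * P.card * B + 32 * P.card * A) / recSum P := by
  classical
  set E := recSum P with hEdef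
  set B1 := (Ioc 0 (A * B)).filter (fun n => E / 4 ≤ |(om P n : ℝ) - E|) with hB1
  set B2 := (Ioc 0 A).filter (fun n => E / 4 ≤ |(om P n : ℝ) - E|) with hB2
  set B2' := (Ioc 0 B).filter (fun n => E / 4 ≤ |(om P n : ℝ) - E|) with hB2'
  set B3 := (Ioc 0 A ×ˢ Ioc 0 B).filter (fun x : ℕ × ℕ =>
      E / 4 ≤ ((P.filter (fun p => p ∣ x.1 ∧ p ∣ x.2)).card : ℝ)) with hB3
  have hsub : rect A B ⊆ B1 ∪ ((B2 ×ˢ Ioc 0 B ∪ Ioc 0 A ×ˢ B2' ∪ B3).image (fun x => x.1 * x.2)) := by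
    intro n hn
    unfold rect at hn
    rw [Finset.mem_image] at hn
    obtain ⟨⟨a, b⟩, hab, rfl⟩ := hn
    rw [Finset.mem_product, Finset.mem_Ioc, Finset.mem_Ioc] at hab
    obtain ⟨⟨ha0, haN⟩, ⟨hb0, hbN⟩⟩ := hab
    rw [Finset.mem_union]
    by_contra hcon
    push Not at hcon
    obtain ⟨hc1, hc2⟩ := hcon
    have hc3 : (a, b) ∉ B2 ×ˢ Ioc 0 B ∪ Ioc 0 A ×ˢ B2' ∪ B3 := fun h =>
      hc2 (Finset.mem_image.2 ⟨(a, b), h, rfl⟩)
    rw [Finset.mem_union, Finset.mem_union, Finset.mem_product, Finset.mem_product] at hc3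
    push Not at hc3
    obtain ⟨⟨hc4, hc5⟩, hc6⟩ := hc3
    have ha : a ∈ Ioc 0 A := Finset.mem_Ioc.2 ⟨ha0, haN⟩
    have hb : b ∈ Ioc 0 B := Finset.mem_Ioc.2 ⟨hb0, hbN⟩
    have hc4' : a ∉ B2 := fun h => hc4 h hb
    have hc5' : b ∉ B2' := fun h => hc5 ha h
    have hab1 : a * b ∈ Ioc 0 (A * B) := by
      rw [Finset.mem_Ioc]
      exact ⟨Nat.mul_pos ha0 hb0, Nat.mul_le_mul haN hbN⟩
    have e1 : |(om P (a * b) : ℝ) - E| < E / 4 := by
      by_contra h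
      exact hc1 (Finset.mem_filter.2 ⟨hab1, not_lt.1 h⟩)
    have e2 : |(om P a : ℝ) - E| < E / 4 := by
      by_contra h
      exact hc4' (Finset.mem_filter.2 ⟨ha, not_lt.1 h⟩)
    have e3 : |(om P b : ℝ) - E| < E / 4 := by
      by_contra h
      exact hc5' (Finset.mem_filter.2 ⟨hb, not_lt.1 h⟩)
    have e4 : ((P.filter (fun p => p ∣ a ∧ p ∣ b)).card : ℝ) < E / 4 := by
      by_contra h
      exact hc6 (Finset.mem_filter.2 ⟨Finset.mem_product.2 ⟨ha, hb⟩, not_lt.1 h⟩)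
    have e5 : (om P a : ℝ) + om P b ≤ om P (a * b) + ((P.filter (fun p => p ∣ a ∧ p ∣ b)).card : ℝ) := by
      exact_mod_cast om_mul_ge P a b
    rw [abs_lt] at e1 e2 e3
    linarith [e1.1, e1.2, e2.1, e2.2, e3.1, e3.2]
  have hc : ((rect A B).card : ℝ) ≤ (B1.card : ℝ) + ((B2.card : ℝ) * B + A * B2'.card + B3.card) := by
    have h1 : (rect A B).card ≤ B1.card + ((B2.card * B + A * B2'.card) + B3.card) := by
      calc (rect A B).card ≤ _ := Finset.card_le_card hsub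
        _ ≤ B1.card + ((B2 ×ˢ Ioc 0 B ∪ Ioc 0 A ×ˢ B2' ∪ B3).image (fun x => x.1 * x.2)).card :=
            Finset.card_union_le _ _
        _ ≤ B1.card + (B2 ×ˢ Ioc 0 B ∪ Ioc 0 A ×ˢ B2' ∪ B3).card := by
            gcongr
            exact Finset.card_image_le
        _ ≤ B1.card + ((B2 ×ˢ Ioc 0 B ∪ Ioc 0 A ×ˢ B2').card + B3.card) := by
            gcongr
            exact Finset.card_union_le _ _
        _ ≤ B1.card + (((B2 ×ˢ Ioc 0 B).card + (Ioc 0 A ×ˢ B2').card) + B3.card) := by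
            gcongr
            exact Finset.card_union_le _ _
        _ = B1.card + ((B2.card * B + A * B2'.card) + B3.card) := by
            rw [Finset.card_product, Finset.card_product, Nat.card_Ioc, Nat.sub_zero, Nat.card_Ioc,
              Nat.sub_zero]
    exact_mod_cast h1
  have h1 := turan_count P hP (A * B) hE
  have h2 := turan_count P hP A hE
  have h2' := turan_count P hP B hE
  have h3 := overlap_rect P hP A B hE
  rw [← hEdef] at h1 h2 h2' h3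
  rw [← hB1] at h1
  rw [← hB2] at h2
  rw [← hB2'] at h2'
  rw [← hB3] at h3
  calc ((rect A B).card : ℝ) ≤ (B1.card : ℝ) + ((B2.card : ℝ) * B + A * B2'.card + B3.card) := hc
    _ ≤ 16 * (((A * B : ℕ) : ℝ) + 2 * P.card) / E + ((16 * ((A : ℝ) + 2 * P.card) / E) * B
          + A * (16 * ((B : ℝ) + 2 * P.card) / E) + 4 * ((A : ℝ) * B) / E) := by
        gcongr
    _ = (52 * ((A : ℝ) * B) + 32 * P.card + 32 * P.card * B + 32 * P.card * A) / E := by
        push_cast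
        field_simp
        ring

/-- Few integers are products `a b` with `a ≤ A`, `b ≤ B`. -/
theorem rect_small (ε : ℝ) (hε : 0 < ε) :
    ∃ N₀ : ℕ, ∀ A B : ℕ, N₀ ≤ A → N₀ ≤ B → ((rect A B).card : ℝ) ≤ ε * ((A : ℝ) * B) := by
  obtain ⟨P, hP, hE⟩ := exists_primes (max 1 (148 / ε))
  have hE1 : (1 : ℝ) < recSum P := lt_of_le_of_lt (le_max_left _ _) hE
  have hE2 : 148 / ε < recSum P := lt_of_le_of_lt (le_max_right _ _) hE
  have hE0 : 0 < recSum P := by linarith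
  refine ⟨P.card + 1, fun A B hA hB => ?_⟩
  refine (rect_card_le P hP A B hE0).trans ?_
  rw [div_le_iff₀ hE0]
  have h1 : ((P.card : ℕ) : ℝ) ≤ A := by
    have : P.card ≤ A := by omega
    exact_mod_cast this
  have h1' : ((P.card : ℕ) : ℝ) ≤ B := by
    have : P.card ≤ B := by omega
    exact_mod_cast this
  have h2 : (1 : ℝ) ≤ A := by
    have : 1 ≤ A := by omega
    exact_mod_cast this
  have h2' : (1 : ℝ) ≤ B := by
    have : 1 ≤ B := by omega
    exact_mod_cast this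
  have h3 : 148 < ε * recSum P := by
    rw [div_lt_iff₀ hε] at hE2
    linarith
  have h4 : (0 : ℝ) ≤ (P.card : ℝ) := by positivity
  have hAB : (0 : ℝ) < (A : ℝ) * B := by positivity
  have h5 : (P.card : ℝ) * B ≤ (A : ℝ) * B := by gcongr
  have h6 : (P.card : ℝ) * A ≤ (A : ℝ) * B := by
    rw [mul_comm (A : ℝ)]; gcongr
  have h7 : (P.card : ℝ) ≤ (A : ℝ) * B := by nlinarith
  have h8 : 148 * ((A : ℝ) * B) ≤ ε * recSum P * ((A : ℝ) * B) := by nlinarith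
  nlinarith

end Pool.Agent.Y906.UP
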