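import Mathlib
import Pool.Agent.Y906.UP.Rect

/-!
# A reflecting two-colouring of the positive integers
-/

set_option autoImplicit false

namespace Pool.Agent.Y906.UP

open Filter Finset

/-- The scales `N 0 < M 0 = N 0 ^ 2 < N 1 < M 1 < ...`; `pm i` is the end of the previous block. -/
structure Scales where
  N : ℕ → ℕ
  pm : ℕ → ℕ
  pm0 : pm 0 = 0
  pms : ∀ i, pm (i + 1) = (N i) ^ 2
  lt : ∀ i, (i + 1) * (pm i + 1) ≤ N i
  two : ∀ i, 2 ≤ N i
  small : ∀ i A B : ℕ, N i ≤ A → N i ≤ B →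
    ((rect A B).card : ℝ) ≤ 1 / (2 ^ i * ((pm i : ℝ) + 1)) * ((A : ℝ) * B)

theorem exists_scales : Nonempty Scales := by
  have hg : ∀ i K : ℕ, ∃ N : ℕ, (i + 1) * (K + 1) ≤ N ∧ 2 ≤ N ∧ ∀ A B : ℕ, N ≤ A → N ≤ B →
      ((rect A B).card : ℝ) ≤ 1 / (2 ^ i * ((K : ℝ) + 1)) * ((A : ℝ) * B) := by
    intro i K
    obtain ⟨N₀, h⟩ := rect_small (1 / (2 ^ i * ((K : ℝ) + 1))) (by positivity)
    exact ⟨N₀ + (i + 1) * (K + 1) + 2, by omega, by omega, fun A B hA hB => h A B (by omega) (by omega)⟩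
  choose g h1 h2 h3 using hg
  let st : ℕ → ℕ := fun i => Nat.rec 0 (fun j prev => (g j prev) ^ 2) i
  exact ⟨⟨fun i => g i (st i), st, rfl, fun i => rfl, fun i => h1 i (st i),
    fun i => h2 i (st i), fun i => h3 i (st i)⟩⟩

namespace Scales

variable (D : Scales)

/-- end of block `i` -/
def M (i : ℕ) : ℕ := (D.N i) ^ 2

theorem pm_succ (i : ℕ) : D.pm (i + 1) = D.M i := D.pms i

theorem pm_lt (i : ℕ) : D.pm i < D.N i := by
  have h := D.lt i
  have : D.pm i + 1 ≤ (i + 1) * (D.pm i + 1) := Nat.le_mul_of_pos_left _ (by omega)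
  omega

theorem N_lt_M (i : ℕ) : D.N i < D.M i := by
  have h := D.two i
  unfold M
  nlinarith

theorem M_lt_N (i : ℕ) : D.M i < D.N (i + 1) := by
  rw [← D.pm_succ]; exact D.pm_lt _

theorem N_mono {i j : ℕ} (h : i ≤ j) : D.N i ≤ D.N j := by
  induction j, h using Nat.le_induction with
  | base => exact le_rfl
  | succ j _ ih => exact ih.trans ((D.N_lt_M j).trans (D.M_lt_N j)).le

theorem M_mono {i j : ℕ} (h : i ≤ j) : D.M i ≤ D.M j := Nat.pow_le_pow_left (D.N_mono h) 2

theorem M_strict : StrictMono D.M :=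
  strictMono_nat_of_lt_succ fun i => (D.M_lt_N i).trans (D.N_lt_M (i + 1))

theorem pm_mono {i j : ℕ} (h : i ≤ j) : D.pm i ≤ D.pm j := by
  rcases i with _ | i
  · rw [D.pm0]; omega
  · obtain ⟨j, rfl⟩ : ∃ k, j = k + 1 := ⟨j - 1, by omega⟩
    rw [D.pm_succ, D.pm_succ]
    exact D.M_mono (by omega)

theorem exists_block (a : ℕ) : ∃ i, a ≤ D.M i := ⟨a, (D.M_strict.le_apply (x := a))⟩

/-- the block of `a` -/
noncomputable def blk (a : ℕ) : ℕ := Nat.find (D.exists_block a)

theorem le_M_blk (a : ℕ) : a ≤ D.M (D.blk a) := Nat.find_spec (D.exists_block a)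

theorem pm_blk_lt (a : ℕ) (ha : 0 < a) : D.pm (D.blk a) < a := by
  rcases h : D.blk a with _ | i
  · rw [D.pm0]; exact ha
  · rw [D.pm_succ]
    have : i < D.blk a := by omega
    have := Nat.find_min (D.exists_block a) this
    omega

theorem blk_eq (a i : ℕ) (h1 : D.pm i < a) (h2 : a ≤ D.M i) : D.blk a = i := by
  apply le_antisymm
  · exact Nat.find_min' _ h2
  · by_contra h
    push Not at h
    have h3 := D.le_M_blk a
    have h4 : D.pm (D.blk a + 1) ≤ D.pm i := D.pm_mono (by omega)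
    rw [D.pm_succ] at h4
    omega

theorem div_lt (a i : ℕ) (h : ¬ a ≤ D.N i) : D.M i / a < D.N i := by
  push Not at h
  rw [Nat.div_lt_iff_lt_mul (by omega)]
  unfold M
  have := D.two i
  nlinarith

/-- The colouring: the lower half of a block is `false`, the upper half is reflected. -/
noncomputable def color (a : ℕ) : Bool :=
  if h : a ≤ D.N (D.blk a) then false else !(color (D.M (D.blk a) / a))
termination_by a
decreasing_by
  have := D.div_lt a _ h
  omega

theorem color_low (a : ℕ) (h : a ≤ D.N (D.blk a)) : D.color a = false := by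
  rw [color, dif_pos h]

theorem color_high (a : ℕ) (h : ¬ a ≤ D.N (D.blk a)) :
    D.color a = !(D.color (D.M (D.blk a) / a)) := by
  rw [color, dif_neg h]

/-- Where the colour changes within a bounded ratio. -/
theorem near_change (K a t : ℕ) (ha : 0 < a) (hat : a ≤ t) (htK : t < K * a)
    (hc : D.color a ≠ D.color t) :
    (a ≤ D.N (D.blk a) ∧ D.N (D.blk a) < K * a) ∨
      D.M (D.blk a) < K * (D.pm (D.blk a) + 1) * a := by
  set i := D.blk a with hi
  have haM := D.le_M_blk a
  have hpa := D.pm_blk_lt a ha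
  rw [← hi] at haM hpa
  by_cases h1 : D.M i < t
  · right
    calc D.M i < t := h1
      _ < K * a := htK
      _ ≤ K * (D.pm i + 1) * a := by
          apply Nat.mul_le_mul_right
          exact Nat.le_mul_of_pos_right _ (by omega)
  · push Not at h1
    have hbt : D.blk t = i := D.blk_eq t i (by omega) h1
    by_cases h2 : t ≤ D.N i
    · exfalso
      apply hc
      rw [D.color_low a (by rw [← hi]; omega), D.color_low t (by rw [hbt]; exact h2)]
    · by_cases h3 : a ≤ D.N i
      · left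
        exact ⟨h3, by omega⟩
      · right
        have ca := D.color_high a (by rw [← hi]; exact h3)
        have ct := D.color_high t (by rw [hbt]; exact h2)
        rw [← hi] at ca
        rw [hbt] at ct
        set s := D.M i / a with hs
        set s' := D.M i / t with hs'
        have hss : s' ≤ s := Nat.div_le_div_left hat ha
        have hsN : s < D.N i := D.div_lt a i h3
        have hsp : s' ≤ D.pm i := by
          by_contra hcon
          push Not at hcon
          have hNM := D.N_lt_M i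
          have b1 : D.blk s = i := D.blk_eq s i (by omega) (by omega)
          have b2 : D.blk s' = i := D.blk_eq s' i hcon (by omega)
          apply hc
          rw [ca, ct, D.color_low s (by rw [b1]; omega), D.color_low s' (by rw [b2]; omega)]
        have h4 : D.M i < (D.pm i + 1) * t := by
          have : D.M i / t < D.pm i + 1 := by omega
          rwa [Nat.div_lt_iff_lt_mul (by omega)] at this
        calc D.M i < (D.pm i + 1) * t := h4
          _ ≤ (D.pm i + 1) * (K * a) := Nat.mul_le_mul_left _ htK.le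
          _ = K * (D.pm i + 1) * a := by ring

/-- monochromatic products with both factors larger than `y` -/
def Bad (y n : ℕ) : Prop := ∃ a a' : ℕ, n = a * a' ∧ D.color a = D.color a' ∧ y < a ∧ y < a'

/-- the covering of the bad integers up to `M j` -/
theorem cover (K i0 j n : ℕ) (hKj : K ≤ j + 1) (hn1 : n ≤ D.M j)
    (hn2 : D.M j < K * n) (hbad : D.Bad (D.pm i0) n) :
    n ∈ rect (D.N j) (D.N j) ∨
      (∃ i, i0 ≤ i ∧ i ≤ j ∧ n ∈ rect (D.N i) (K * D.M j / D.N i)) ∨
      (∃ i, i0 ≤ i ∧ i < j ∧ n ∈ rect (D.M i) (K * (D.pm i + 1) * D.M j / D.M i)) := by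
  -- symmetric reduction to `a ≤ a'`
  obtain ⟨a, a', hn, hcol, hya, hya', haa⟩ : ∃ a a' : ℕ, n = a * a' ∧ D.color a = D.color a' ∧
      D.pm i0 < a ∧ D.pm i0 < a' ∧ a ≤ a' := by
    obtain ⟨a, a', h1, h2, h3, h4⟩ := hbad
    rcases le_total a a' with h | h
    · exact ⟨a, a', h1, h2, h3, h4, h⟩
    · exact ⟨a', a, by rw [h1, mul_comm], h2.symm, h4, h3, h⟩
  have ha0 : 0 < a := by omega
  have ha'0 : 0 < a' := by omega
  have haN : a ≤ D.N j := by
    by_contra hcon
    push Not at hcon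
    have : D.N j * D.N j < a * a' := Nat.mul_lt_mul'' hcon (by omega)
    unfold M at hn1
    rw [sq] at hn1
    omega
  by_cases h1 : a' ≤ D.N j
  · left
    rw [hn]
    exact mem_rect _ _ _ _ ha0 haN ha'0 h1
  · right
    have ha'n : a' ≤ n := by
      rw [hn]; exact Nat.le_mul_of_pos_left _ ha0
    have hpj := D.pm_lt j
    have hb : D.blk a' = j := D.blk_eq a' j (by omega) (by omega)
    have hc := D.color_high a' (by rw [hb]; exact h1)
    rw [hb] at hc
    set t := D.M j / a' with ht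
    have hat : a ≤ t := by
      rw [ht, Nat.le_div_iff_mul_le ha'0, ← hn]; exact hn1
    have htK : t < K * a := by
      rw [ht, Nat.div_lt_iff_lt_mul ha'0]
      calc D.M j < K * n := hn2
        _ = K * a * a' := by rw [hn]; ring
    have hne : D.color a ≠ D.color t := by
      rw [hcol, hc]
      simp
    have hi1 : D.blk a ≤ j := by
      have h2 : a ≤ D.M j := haN.trans (D.N_lt_M j).le
      exact Nat.find_min' _ h2
    have hi0 : i0 ≤ D.blk a := by
      by_contra hcon
      push Not at hcon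
      have h2 := D.le_M_blk a
      rw [← D.pm_succ] at h2
      have h3 := D.pm_mono (i := D.blk a + 1) (j := i0) (by omega)
      omega
    have hNpos : ∀ i, 0 < D.N i := fun i => by have := D.two i; omega
    have hMpos : ∀ i, 0 < D.M i := fun i => by have := D.N_lt_M i; omega
    rcases D.near_change K a t ha0 hat htK hne with ⟨h2, h3⟩ | h2
    · left
      refine ⟨D.blk a, hi0, hi1, ?_⟩
      rw [hn]
      apply mem_rect _ _ _ _ ha0 h2 ha'0
      rw [Nat.le_div_iff_mul_le (hNpos _)]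
      calc a' * D.N (D.blk a) ≤ a' * (K * a) := Nat.mul_le_mul_left _ h3.le
        _ = K * n := by rw [hn]; ring
        _ ≤ K * D.M j := Nat.mul_le_mul_left _ hn1
    · right
      have hlt : D.blk a < j := by
        rcases Nat.lt_or_ge (D.blk a) j with h | h
        · exact h
        · exfalso
          have he : D.blk a = j := le_antisymm hi1 h
          rw [he] at h2
          have h3 : D.M j < D.N j * D.N j := by
            calc D.M j < K * (D.pm j + 1) * a := h2
              _ ≤ ((j + 1) * (D.pm j + 1)) * D.N j := by gcongr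
              _ ≤ D.N j * D.N j := Nat.mul_le_mul_right _ (D.lt j)
          unfold M at h3
          rw [sq] at h3
          omega
      refine ⟨D.blk a, hi0, hlt, ?_⟩
      rw [hn]
      apply mem_rect _ _ _ _ ha0 (D.le_M_blk a) ha'0
      rw [Nat.le_div_iff_mul_le (hMpos _)]
      calc a' * D.M (D.blk a) ≤ a' * (K * (D.pm (D.blk a) + 1) * a) := Nat.mul_le_mul_left _ h2.le
        _ = K * (D.pm (D.blk a) + 1) * n := by rw [hn]; ring
        _ ≤ K * (D.pm (D.blk a) + 1) * D.M j := Nat.mul_le_mul_left _ hn1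

open scoped Classical in
/-- the counting bound at the scale `M j` -/
theorem count (K i0 j : ℕ) (hK : 1 ≤ K) (hKj : K ≤ j + 1) :
    (((Ioc 0 (D.M j)).filter (fun n => D.Bad (D.pm i0) n)).card : ℝ) ≤
      (D.M j : ℝ) * (1 / K + 1 / 2 ^ j + 4 * K / 2 ^ i0) := by
  set X := (Ioc 0 (D.M j)).filter (fun n => D.Bad (D.pm i0) n) with hX
  set R1 := fun i => rect (D.N i) (K * D.M j / D.N i) with hR1
  set R2 := fun i => rect (D.M i) (K * (D.pm i + 1) * D.M j / D.M i) with hR2
  have hNpos : ∀ i, 0 < D.N i := fun i => by have := D.two i; omega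
  have hMpos : ∀ i, 0 < D.M i := fun i => by have := D.N_lt_M i; omega
  have hsub : X ⊆ Ioc 0 (D.M j / K) ∪ (rect (D.N j) (D.N j) ∪
      ((Ico i0 (j + 1)).biUnion R1 ∪ (Ico i0 j).biUnion R2)) := by
    intro n hn
    rw [hX, mem_filter, mem_Ioc] at hn
    obtain ⟨⟨hn0, hn1⟩, hb⟩ := hn
    rw [mem_union]
    by_cases h : n ≤ D.M j / K
    · left; exact mem_Ioc.2 ⟨hn0, h⟩
    · right
      rw [Nat.le_div_iff_mul_le (by omega)] at h
      push Not at h
      rcases D.cover K i0 j n hKj hn1 (by rw [mul_comm]; exact h) hb with h | ⟨i, h1, h2, h3⟩ | ⟨i, h1, h2, h3⟩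
      · exact mem_union_left _ h
      · apply mem_union_right
        apply mem_union_left
        exact mem_biUnion.2 ⟨i, mem_Ico.2 ⟨h1, by omega⟩, h3⟩
      · apply mem_union_right
        apply mem_union_right
        exact mem_biUnion.2 ⟨i, mem_Ico.2 ⟨h1, h2⟩, h3⟩
  have hcard : (X.card : ℝ) ≤ ((D.M j / K : ℕ) : ℝ) + (((rect (D.N j) (D.N j)).card : ℝ) +
      (∑ i ∈ Ico i0 (j + 1), ((R1 i).card : ℝ) + ∑ i ∈ Ico i0 j, ((R2 i).card : ℝ))) := by
    have h1 : X.card ≤ (D.M j / K) + ((rect (D.N j) (D.N j)).card +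
      (∑ i ∈ Ico i0 (j + 1), (R1 i).card + ∑ i ∈ Ico i0 j, (R2 i).card)) := by
      refine (card_le_card hsub).trans ?_
      refine (card_union_le _ _).trans ?_
      rw [Nat.card_Ioc, Nat.sub_zero]
      apply Nat.add_le_add_left
      refine (card_union_le _ _).trans ?_
      apply Nat.add_le_add_left
      refine (card_union_le _ _).trans ?_
      exact Nat.add_le_add card_biUnion_le card_biUnion_le
    exact_mod_cast h1
  have hM0 : (0 : ℝ) ≤ D.M j := Nat.cast_nonneg _
  have hK0 : (0 : ℝ) < K := by exact_mod_cast hK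
  have b0 : ((D.M j / K : ℕ) : ℝ) ≤ D.M j * (1 / K) := by
    have : ((D.M j / K : ℕ) : ℝ) ≤ (D.M j : ℝ) / K := Nat.cast_div_le
    calc _ ≤ (D.M j : ℝ) / K := this
      _ = _ := by ring
  have b1 : ((rect (D.N j) (D.N j)).card : ℝ) ≤ D.M j * (1 / 2 ^ j) := by
    refine (D.small j _ _ le_rfl le_rfl).trans ?_
    have hp : (0 : ℝ) ≤ D.pm j := Nat.cast_nonneg _
    have h1 : 1 / (2 ^ j * ((D.pm j : ℝ) + 1)) ≤ 1 / 2 ^ j := by
      apply one_div_le_one_div_of_le (by positivity)
      have : (0 : ℝ) < 2 ^ j := by positivity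
      nlinarith
    have h2 : (D.N j : ℝ) * D.N j = D.M j := by unfold M; push_cast; ring
    rw [h2, mul_comm]
    exact mul_le_mul_of_nonneg_left h1 hM0
  have b2 : ∀ i ∈ Ico i0 (j + 1), ((R1 i).card : ℝ) ≤ D.M j * K * (1 / 2 ^ i) := by
    intro i hi
    rw [mem_Ico] at hi
    have hp : (0 : ℝ) ≤ D.pm i := Nat.cast_nonneg _
    have hN0 : (0 : ℝ) < D.N i := by exact_mod_cast hNpos i
    have hB : D.N i ≤ K * D.M j / D.N i := by
      rw [Nat.le_div_iff_mul_le (hNpos i)]
      have h1 : D.M i ≤ D.M j := D.M_mono (by omega)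
      unfold M at h1 ⊢
      calc D.N i * D.N i = D.N i ^ 2 := by ring
        _ ≤ D.N j ^ 2 := h1
        _ ≤ K * D.N j ^ 2 := Nat.le_mul_of_pos_left _ (by omega)
    refine (D.small i _ _ le_rfl hB).trans ?_
    have h1 : 1 / (2 ^ i * ((D.pm i : ℝ) + 1)) ≤ 1 / 2 ^ i := by
      apply one_div_le_one_div_of_le (by positivity)
      have : (0 : ℝ) < 2 ^ i := by positivity
      nlinarith
    have h2 : (D.N i : ℝ) * ((K * D.M j / D.N i : ℕ) : ℝ) ≤ K * D.M j := by
      have h3 : ((K * D.M j / D.N i : ℕ) : ℝ) ≤ ((K * D.M j : ℕ) : ℝ) / D.N i := Nat.cast_div_le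
      calc (D.N i : ℝ) * ((K * D.M j / D.N i : ℕ) : ℝ) ≤ D.N i * (((K * D.M j : ℕ) : ℝ) / D.N i) := by
            gcongr
        _ = K * D.M j := by push_cast; field_simp
    calc _ ≤ 1 / 2 ^ i * (K * D.M j : ℝ) := mul_le_mul h1 h2 (by positivity) (by positivity)
      _ = _ := by ring
  have b3 : ∀ i ∈ Ico i0 j, ((R2 i).card : ℝ) ≤ D.M j * K * (1 / 2 ^ i) := by
    intro i hi
    rw [mem_Ico] at hi
    have hp : (0 : ℝ) ≤ D.pm i := Nat.cast_nonneg _
    have hM1 : (0 : ℝ) < D.M i := by exact_mod_cast hMpos i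
    have hB : D.N i ≤ K * (D.pm i + 1) * D.M j / D.M i := by
      rw [Nat.le_div_iff_mul_le (hMpos i)]
      have h1 : D.pm (i + 1) ≤ D.pm j := D.pm_mono (by omega)
      rw [D.pm_succ] at h1
      have h2 := D.pm_lt j
      have h3 : D.N i ≤ D.N j := D.N_mono (by omega)
      calc D.N i * D.M i ≤ D.N j * D.N j := Nat.mul_le_mul h3 (by omega)
        _ = D.M j := by unfold M; ring
        _ ≤ K * (D.pm i + 1) * D.M j := Nat.le_mul_of_pos_left _ (by positivity)
    refine (D.small i _ _ (D.N_lt_M i).le hB).trans ?_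
    have h2 : (D.M i : ℝ) * ((K * (D.pm i + 1) * D.M j / D.M i : ℕ) : ℝ) ≤ K * ((D.pm i : ℝ) + 1) * D.M j := by
      have h3 : ((K * (D.pm i + 1) * D.M j / D.M i : ℕ) : ℝ) ≤ ((K * (D.pm i + 1) * D.M j : ℕ) : ℝ) / D.M i :=
        Nat.cast_div_le
      calc (D.M i : ℝ) * ((K * (D.pm i + 1) * D.M j / D.M i : ℕ) : ℝ)
          ≤ D.M i * (((K * (D.pm i + 1) * D.M j : ℕ) : ℝ) / D.M i) := by gcongr
        _ = K * ((D.pm i : ℝ) + 1) * D.M j := by push_cast; field_simp
    calc _ ≤ 1 / (2 ^ i * ((D.pm i : ℝ) + 1)) * (K * ((D.pm i : ℝ) + 1) * D.M j) :=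
          mul_le_mul_of_nonneg_left h2 (by positivity)
      _ = _ := by field_simp
  have geo : ∀ m, ∑ i ∈ Ico i0 m, (1 : ℝ) / 2 ^ i ≤ 2 / 2 ^ i0 := by
    intro m
    have key : ∀ k, ∑ i ∈ Ico i0 (i0 + k), (1 : ℝ) / 2 ^ i ≤ 2 / 2 ^ i0 - 1 / 2 ^ (i0 + k) * 2 := by
      intro k
      induction k with
      | zero => simp; ring_nf; exact le_rfl
      | succ k ih =>
        rw [← Nat.add_assoc, sum_Ico_succ_top (by omega)]
        have : (1 : ℝ) / 2 ^ (i0 + k + 1) * 2 = 1 / 2 ^ (i0 + k) := by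
          rw [pow_succ]; field_simp
        rw [this]
        have h2 : (1 : ℝ) / 2 ^ (i0 + k) * 2 = 1 / 2 ^ (i0 + k) + 1 / 2 ^ (i0 + k) := by ring
        linarith
    rcases Nat.lt_or_ge m i0 with h | h
    · rw [Ico_eq_empty (by omega), sum_empty]; positivity
    · obtain ⟨k, rfl⟩ := Nat.exists_eq_add_of_le h
      have h1 := key k
      have : (0 : ℝ) ≤ 1 / 2 ^ (i0 + k) * 2 := by positivity
      linarith
  have s2 : ∑ i ∈ Ico i0 (j + 1), ((R1 i).card : ℝ) ≤ D.M j * K * (2 / 2 ^ i0) := by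
    refine (sum_le_sum b2).trans ?_
    rw [← mul_sum]
    exact mul_le_mul_of_nonneg_left (geo _) (by positivity)
  have s3 : ∑ i ∈ Ico i0 j, ((R2 i).card : ℝ) ≤ D.M j * K * (2 / 2 ^ i0) := by
    refine (sum_le_sum b3).trans ?_
    rw [← mul_sum]
    exact mul_le_mul_of_nonneg_left (geo _) (by positivity)
  calc (X.card : ℝ) ≤ _ := hcard
    _ ≤ D.M j * (1 / K) + (D.M j * (1 / 2 ^ j) + (D.M j * K * (2 / 2 ^ i0) + D.M j * K * (2 / 2 ^ i0))) := by
        linarith
    _ = _ := by ring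

end Scales

end Pool.Agent.Y906.UP
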