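import Mathlib
import Pool.Agent.Y906.UP.Color

/-!
# The two classes and the density estimate
-/

set_option autoImplicit false

namespace Pool.Agent.Y906.UP

open Filter Finset Topology

namespace Scales

variable (D : Scales)

/-- the first class -/
def cls (b : Bool) : Set ℕ := {a | 1 ≤ a ∧ D.color a = b}

theorem blk_one : D.blk 1 = 0 := by
  apply D.blk_eq
  · rw [D.pm0]; omega
  · have := D.N_lt_M 0; have := D.two 0; omega

theorem color_one : D.color 1 = false := by
  apply D.color_low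
  have := D.two (D.blk 1)
  omega

theorem blk_M0 : D.blk (D.M 0) = 0 := by
  apply D.blk_eq
  · rw [D.pm0]; have := D.N_lt_M 0; omega
  · exact le_rfl

theorem color_M0 : D.color (D.M 0) = true := by
  have h : ¬ D.M 0 ≤ D.N (D.blk (D.M 0)) := by
    rw [D.blk_M0]; have := D.N_lt_M 0; omega
  rw [D.color_high _ h, D.blk_M0, Nat.div_self (by have := D.N_lt_M 0; omega), D.color_one]
  rfl

theorem cls_false_nonempty : (D.cls false).Nonempty := ⟨1, le_rfl, D.color_one⟩

theorem cls_true_nonempty : (D.cls true).Nonempty :=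
  ⟨D.M 0, by have := D.N_lt_M 0; omega, D.color_M0⟩

theorem cls_disjoint : Disjoint (D.cls false) (D.cls true) := by
  rw [Set.disjoint_left]
  rintro a ⟨_, h1⟩ ⟨_, h2⟩
  rw [h1] at h2
  exact Bool.noConfusion h2

theorem cls_union : D.cls false ∪ D.cls true = {n : ℕ | 1 ≤ n} := by
  ext n
  constructor
  · rintro (h | h)
    · exact h.1
    · exact h.1
  · intro h
    rcases hc : D.color n with _ | _
    · exact Or.inl ⟨h, hc⟩
    · exact Or.inr ⟨h, hc⟩

open scoped Classical in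
/-- uniform smallness at the scales `M j` -/
theorem uniform (ε : ℝ) (hε : 0 < ε) : ∃ y J : ℕ, ∀ j, J ≤ j →
    (((Ioc 0 (D.M j)).filter (fun n => D.Bad y n)).card : ℝ) ≤ ε * D.M j := by
  obtain ⟨K, hK⟩ := exists_nat_gt (3 / ε)
  have hK0 : (0 : ℝ) < K := lt_trans (by positivity) hK
  have hK1 : 1 ≤ K := by exact_mod_cast hK0
  have hKε : 1 / (K : ℝ) ≤ ε / 3 := by
    rw [div_lt_iff₀ hε] at hK
    rw [div_le_div_iff₀ hK0 (by norm_num)]
    linarith
  obtain ⟨i0, hi0⟩ := exists_pow_lt_of_lt_one (show (0 : ℝ) < ε / 3 / (4 * K) by positivity)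
    (show (1 / 2 : ℝ) < 1 by norm_num)
  obtain ⟨j0, hj0⟩ := exists_pow_lt_of_lt_one (show (0 : ℝ) < ε / 3 by positivity)
    (show (1 / 2 : ℝ) < 1 by norm_num)
  refine ⟨D.pm i0, max K j0, fun j hj => ?_⟩
  have hjK : K ≤ j := (le_max_left _ _).trans hj
  have hjj : j0 ≤ j := (le_max_right _ _).trans hj
  refine (D.count K i0 j hK1 (by omega)).trans ?_
  rw [mul_comm ε]
  apply mul_le_mul_of_nonneg_left _ (Nat.cast_nonneg _)
  have h2 : (1 : ℝ) / 2 ^ j ≤ ε / 3 := by
    calc (1 : ℝ) / 2 ^ j = (1 / 2) ^ j := by rw [div_pow, one_pow]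
      _ ≤ (1 / 2) ^ j0 := pow_le_pow_of_le_one (by norm_num) (by norm_num) hjj
      _ ≤ ε / 3 := hj0.le
  have h3 : 4 * (K : ℝ) / 2 ^ i0 ≤ ε / 3 := by
    rw [lt_div_iff₀ (by positivity)] at hi0
    calc 4 * (K : ℝ) / 2 ^ i0 = (1 / 2) ^ i0 * (4 * K) := by rw [div_pow, one_pow]; ring
      _ ≤ ε / 3 := hi0.le
  linarith

end Scales

end Pool.Agent.Y906.UP
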